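import Pool.Agent.H74.TSD.Targets

/-! AV: three contact vectors with a large determinant. -/

set_option autoImplicit false

open MeasureTheory Set Metric Filter
open scoped ENNReal Pointwise Topology

namespace Pool.Agent.H33.TSD

open Pool.Agent.H74.TSD Pool.Agent.H73.TS

namespace AV

/-- a quadratic form averaged over an isotropic measure -/
theorem avg {n : ℕ} (x : Fin n → ℝ) (u : Fin n → E 3)
    (h00 : ∑ i, x i * (u i 0 * u i 0) = 1 / 3) (h11 : ∑ i, x i * (u i 1 * u i 1) = 1 / 3)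
    (h22 : ∑ i, x i * (u i 2 * u i 2) = 1 / 3) (h01 : ∑ i, x i * (u i 0 * u i 1) = 0)
    (h02 : ∑ i, x i * (u i 0 * u i 2) = 0) (h12 : ∑ i, x i * (u i 1 * u i 2) = 0)
    (A B C D F G : ℝ) :
    ∑ i, x i * (A * (u i 0 * u i 0) + B * (u i 1 * u i 1) + C * (u i 2 * u i 2)
      + D * (u i 0 * u i 1) + F * (u i 0 * u i 2) + G * (u i 1 * u i 2)) = (A + B + C) / 3 := by
  have h1 : ∀ i, x i * (A * (u i 0 * u i 0) + B * (u i 1 * u i 1) + C * (u i 2 * u i 2)
      + D * (u i 0 * u i 1) + F * (u i 0 * u i 2) + G * (u i 1 * u i 2))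
      = A * (x i * (u i 0 * u i 0)) + B * (x i * (u i 1 * u i 1)) + C * (x i * (u i 2 * u i 2))
        + D * (x i * (u i 0 * u i 1)) + F * (x i * (u i 0 * u i 2))
        + G * (x i * (u i 1 * u i 2)) := by
    intro i
    ring
  rw [Finset.sum_congr rfl fun i _ => h1 i]
  rw [Finset.sum_add_distrib, Finset.sum_add_distrib, Finset.sum_add_distrib,
    Finset.sum_add_distrib, Finset.sum_add_distrib, ← Finset.mul_sum, ← Finset.mul_sum,
    ← Finset.mul_sum, ← Finset.mul_sum, ← Finset.mul_sum, ← Finset.mul_sum, h00, h11, h22, h01,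
    h02, h12]
  ring

theorem main {n : ℕ} (h : T_AE) (hn : n ≤ 6) (X : Set (E 3)) (x : Fin n → ℝ) (u : Fin n → E 3)
    (hu : ∀ i, u i ∈ X) (hx : ∀ i, 0 ≤ x i) (hx1 : ∑ i, x i = 1)
    (h00 : ∑ i, x i * (u i 0 * u i 0) = 1 / 3) (h11 : ∑ i, x i * (u i 1 * u i 1) = 1 / 3)
    (h22 : ∑ i, x i * (u i 2 * u i 2) = 1 / 3) (h01 : ∑ i, x i * (u i 0 * u i 1) = 0)
    (h02 : ∑ i, x i * (u i 0 * u i 2) = 0) (h12 : ∑ i, x i * (u i 1 * u i 2) = 0) :
    ∃ a ∈ X, ∃ b ∈ X, ∃ c ∈ X, 2 / 5 ≤ det3 a b c ^ 2 := by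
  have hav := avg x u h00 h11 h22 h01 h02 h12
  -- the total
  have s1 : ∀ b c : E 3, ∑ i, x i * det3 (u i) b c ^ 2
      = ((b 1 * c 2 - b 2 * c 1) ^ 2 + (b 0 * c 2 - b 2 * c 0) ^ 2
        + (b 0 * c 1 - b 1 * c 0) ^ 2) / 3 := by
    intro b c
    rw [← hav ((b 1 * c 2 - b 2 * c 1) ^ 2) ((b 0 * c 2 - b 2 * c 0) ^ 2)
      ((b 0 * c 1 - b 1 * c 0) ^ 2) (-2 * (b 1 * c 2 - b 2 * c 1) * (b 0 * c 2 - b 2 * c 0))
      (2 * (b 1 * c 2 - b 2 * c 1) * (b 0 * c 1 - b 1 * c 0))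
      (-2 * (b 0 * c 2 - b 2 * c 0) * (b 0 * c 1 - b 1 * c 0))]
    apply Finset.sum_congr rfl
    intro i _
    rw [det3]
    ring
  have s2 : ∀ c : E 3, ∑ j, x j * (((u j 1 * c 2 - u j 2 * c 1) ^ 2
      + (u j 0 * c 2 - u j 2 * c 0) ^ 2 + (u j 0 * c 1 - u j 1 * c 0) ^ 2) / 3)
      = 2 / 9 * (c 0 * c 0 + c 1 * c 1 + c 2 * c 2) := by
    intro c
    have h2 := hav ((c 2 ^ 2 + c 1 ^ 2) / 3) ((c 2 ^ 2 + c 0 ^ 2) / 3) ((c 1 ^ 2 + c 0 ^ 2) / 3)
      (-2 * c 0 * c 1 / 3) (-2 * c 0 * c 2 / 3) (-2 * c 1 * c 2 / 3)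
    calc _ = ∑ i, x i * ((c 2 ^ 2 + c 1 ^ 2) / 3 * (u i 0 * u i 0)
          + (c 2 ^ 2 + c 0 ^ 2) / 3 * (u i 1 * u i 1) + (c 1 ^ 2 + c 0 ^ 2) / 3 * (u i 2 * u i 2)
          + -2 * c 0 * c 1 / 3 * (u i 0 * u i 1) + -2 * c 0 * c 2 / 3 * (u i 0 * u i 2)
          + -2 * c 1 * c 2 / 3 * (u i 1 * u i 2)) := by
            apply Finset.sum_congr rfl
            intro i _
            ring
      _ = _ := by
            rw [h2]
            ring
  have s3 : ∑ k, x k * (2 / 9 * (u k 0 * u k 0 + u k 1 * u k 1 + u k 2 * u k 2)) = 2 / 9 := by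
    have h2 := hav (2 / 9) (2 / 9) (2 / 9) 0 0 0
    calc _ = ∑ i, x i * (2 / 9 * (u i 0 * u i 0) + 2 / 9 * (u i 1 * u i 1)
          + 2 / 9 * (u i 2 * u i 2) + 0 * (u i 0 * u i 1) + 0 * (u i 0 * u i 2)
          + 0 * (u i 1 * u i 2)) := by
            apply Finset.sum_congr rfl
            intro i _
            ring
      _ = _ := by
            rw [h2]
            norm_num
  have total : ∑ k, ∑ j, ∑ i, x i * x j * x k * det3 (u i) (u j) (u k) ^ 2 = 2 / 9 := by
    rw [← s3]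
    apply Finset.sum_congr rfl
    intro k _
    rw [← s2 (u k), Finset.mul_sum]
    apply Finset.sum_congr rfl
    intro j _
    rw [← s1 (u j) (u k), Finset.mul_sum, Finset.mul_sum]
    apply Finset.sum_congr rfl
    intro i _
    ring
  by_contra hcon
  push Not at hcon
  have hne : Nonempty (Fin n) := by
    rcases isEmpty_or_nonempty (Fin n) with he | hne
    · exfalso
      rw [Finset.univ_eq_empty, Finset.sum_empty] at hx1
      exact zero_ne_one hx1
    · exact hne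
  obtain ⟨m, -, hm⟩ := Finset.exists_max_image (Finset.univ : Finset (Fin n × Fin n × Fin n))
    (fun t => det3 (u t.1) (u t.2.1) (u t.2.2) ^ 2) Finset.univ_nonempty
  have hm1 : det3 (u m.1) (u m.2.1) (u m.2.2) ^ 2 < 2 / 5 :=
    hcon _ (hu _) _ (hu _) _ (hu _)
  set μ : ℝ := det3 (u m.1) (u m.2.1) (u m.2.2) ^ 2 with hμ
  have hμ0 : 0 ≤ μ := sq_nonneg _
  have hterm : ∀ i j k : Fin n, x i * x j * x k * det3 (u i) (u j) (u k) ^ 2
      ≤ μ * (if i ≠ j ∧ i ≠ k ∧ j ≠ k then x i * x j * x k else 0) := by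
    intro i j k
    by_cases hc : i ≠ j ∧ i ≠ k ∧ j ≠ k
    · rw [if_pos hc]
      have h3 : det3 (u i) (u j) (u k) ^ 2 ≤ μ := hm (i, j, k) (Finset.mem_univ _)
      have h4 : 0 ≤ x i * x j * x k := mul_nonneg (mul_nonneg (hx i) (hx j)) (hx k)
      have := mul_le_mul_of_nonneg_left h3 h4
      linarith
    · rw [if_neg hc, mul_zero]
      have h5 : det3 (u i) (u j) (u k) = 0 := by
        by_cases h6 : i = j
        · rw [h6, det3]
          ring
        · by_cases h7 : i = k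
          · rw [h7, det3]
            ring
          · by_cases h8 : j = k
            · rw [h8, det3]
              ring
            · exact absurd ⟨h6, h7, h8⟩ hc
      rw [h5]
      norm_num
  have hle : ∑ k, ∑ j, ∑ i, x i * x j * x k * det3 (u i) (u j) (u k) ^ 2
      ≤ μ * ∑ i, ∑ j, ∑ k, (if i ≠ j ∧ i ≠ k ∧ j ≠ k then x i * x j * x k else 0) := by
    calc ∑ k, ∑ j, ∑ i, x i * x j * x k * det3 (u i) (u j) (u k) ^ 2
        ≤ ∑ k, ∑ j, ∑ i, μ * (if i ≠ j ∧ i ≠ k ∧ j ≠ k then x i * x j * x k else 0) :=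
          Finset.sum_le_sum fun k _ => Finset.sum_le_sum fun j _ =>
            Finset.sum_le_sum fun i _ => hterm i j k
      _ = ∑ k, ∑ i, ∑ j, μ * (if i ≠ j ∧ i ≠ k ∧ j ≠ k then x i * x j * x k else 0) := by
          apply Finset.sum_congr rfl
          intro k _
          exact Finset.sum_comm
      _ = ∑ i, ∑ k, ∑ j, μ * (if i ≠ j ∧ i ≠ k ∧ j ≠ k then x i * x j * x k else 0) :=
          Finset.sum_comm
      _ = ∑ i, ∑ j, ∑ k, μ * (if i ≠ j ∧ i ≠ k ∧ j ≠ k then x i * x j * x k else 0) := by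
          apply Finset.sum_congr rfl
          intro i _
          exact Finset.sum_comm
      _ = _ := by
          rw [Finset.mul_sum]
          apply Finset.sum_congr rfl
          intro i _
          rw [Finset.mul_sum]
          apply Finset.sum_congr rfl
          intro j _
          rw [Finset.mul_sum]
  rw [total] at hle
  have h59 := mul_le_mul_of_nonneg_left (h n x hn hx hx1) hμ0
  linarith

end AV

theorem pf_AV (h : T_AE) : T_AV := by
  intro X hX hz
  obtain ⟨ι, hι, z, w, hzX, haff, hw, hw1, hwz⟩ := eq_pos_convex_span_of_mem_convexHull hz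
  have hcard : Fintype.card ι ≤ 6 := by
    have h1 := haff.card_le_finrank_succ
    have h2 : Module.finrank ℝ (vectorSpan ℝ (Set.range z)) ≤ Module.finrank ℝ (Fin 5 → ℝ) :=
      Submodule.finrank_le _
    rw [Module.finrank_fin_fun] at h2
    omega
  have hsel : ∀ i, ∃ a ∈ X, qd a = z i := fun i => hzX ⟨i, rfl⟩
  choose v hvX hv using hsel
  let e := Fintype.equivFin ι
  let x : Fin (Fintype.card ι) → ℝ := fun j => w (e.symm j)
  let u : Fin (Fintype.card ι) → E 3 := fun j => v (e.symm j)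
  have hsum : ∀ F : ι → ℝ, ∑ j, F (e.symm j) = ∑ i, F i := fun F => Equiv.sum_comp e.symm F
  have hx1 : ∑ j, x j = 1 := by
    rw [← hw1]
    exact hsum w
  have hcomp : ∀ r : Fin 5, ∑ j, x j * qd (u j) r = (![1 / 3, 1 / 3, 0, 0, 0] : Fin 5 → ℝ) r := by
    intro r
    rw [← hwz]
    rw [Finset.sum_apply]
    have h3 := hsum fun i => w i * qd (v i) r
    show ∑ j, w (e.symm j) * qd (v (e.symm j)) r = _
    rw [h3]
    apply Finset.sum_congr rfl
    intro i _
    rw [hv i]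
    rfl
  have h00 : ∑ i, x i * (u i 0 * u i 0) = 1 / 3 := by
    have := hcomp 0
    have h4 : ∀ j, qd (u j) 0 = u j 0 * u j 0 := fun j => sq (u j 0)
    simp only [h4] at this
    exact this
  have h11 : ∑ i, x i * (u i 1 * u i 1) = 1 / 3 := by
    have := hcomp 1
    have h4 : ∀ j, qd (u j) 1 = u j 1 * u j 1 := fun j => sq (u j 1)
    simp only [h4] at this
    exact this
  have h01 : ∑ i, x i * (u i 0 * u i 1) = 0 := hcomp 2
  have h02 : ∑ i, x i * (u i 0 * u i 2) = 0 := hcomp 3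
  have h12 : ∑ i, x i * (u i 1 * u i 2) = 0 := hcomp 4
  have h22 : ∑ i, x i * (u i 2 * u i 2) = 1 / 3 := by
    have h5 : ∀ i, x i * (u i 2 * u i 2) = x i - x i * (u i 0 * u i 0) - x i * (u i 1 * u i 1) := by
      intro i
      have h6 : ‖u i‖ ^ 2 = 1 := by
        rw [hX _ (hvX _)]
        norm_num
      rw [EuclideanSpace.norm_sq_eq, Fin.sum_univ_three] at h6
      simp only [Real.norm_eq_abs, sq_abs] at h6
      have h7 : u i 2 * u i 2 = 1 - u i 0 * u i 0 - u i 1 * u i 1 := by nlinarith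
      rw [h7]
      ring
    rw [Finset.sum_congr rfl fun i _ => h5 i, Finset.sum_sub_distrib, Finset.sum_sub_distrib,
      hx1, h00, h11]
    norm_num
  exact AV.main h hcard X x u (fun i => hvX _) (fun i => (hw _).le) hx1 h00 h11 h22 h01 h02 h12

end Pool.Agent.H33.TSD
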