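import Pool.Agent.H74.TSD.Targets

/-! CW: the width of a body at least as wide as a cylinder. -/

set_option autoImplicit false

open MeasureTheory Set Metric Filter
open scoped ENNReal Pointwise Topology

namespace Pool.Agent.H33.TSD

open Pool.Agent.H74.TSD Pool.Agent.H73.TS

theorem pf_CW : T_CW := by
  intro n w v A K hA hAn hK hKn hW f
  set P : ℝ × ℝ := (f (w 0), f (w 1)) with hP
  have hcont : Continuous (ev P) := by
    unfold ev
    fun_prop
  obtain ⟨x, hx, hxm⟩ := hA.exists_isMaxOn hAn hcont.continuousOn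
  obtain ⟨y, hy, hym⟩ := hA.exists_isMinOn hAn hcont.continuousOn
  have hsup : sSup (ev P '' A) = ev P x := by
    apply IsGreatest.csSup_eq
    refine ⟨⟨x, hx, rfl⟩, ?_⟩
    rintro _ ⟨z, hz, rfl⟩
    exact hxm hz
  have hinf : sInf (ev P '' A) = ev P y := by
    apply IsLeast.csInf_eq
    refine ⟨⟨y, hy, rfl⟩, ?_⟩
    rintro _ ⟨z, hz, rfl⟩
    exact hym hz
  have hw2 : wdt2 A P = ev P x - ev P y := by
    rw [wdt2, hsup, hinf]
  let a : Fin (n + 2) → ℝ :=
    Fin.cons x.1 (Fin.cons x.2 fun i : Fin n => if 0 ≤ f (w i.succ.succ) then 1 else 0)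
  let b : Fin (n + 2) → ℝ :=
    Fin.cons y.1 (Fin.cons y.2 fun i : Fin n => if 0 ≤ f (w i.succ.succ) then 0 else 1)
  have hp : v + ∑ i, a i • w i ∈ Cyl w v A := by
    refine ⟨a, ?_, ?_, rfl⟩
    · show (x.1, x.2) ∈ A
      exact hx
    · intro i
      show (if 0 ≤ f (w i.succ.succ) then (1 : ℝ) else 0) ∈ Set.Icc (0 : ℝ) 1
      split_ifs
      · exact ⟨zero_le_one, le_refl 1⟩
      · exact ⟨le_refl 0, zero_le_one⟩
  have hq : v + ∑ i, b i • w i ∈ Cyl w v A := by
    refine ⟨b, ?_, ?_, rfl⟩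
    · show (y.1, y.2) ∈ A
      exact hy
    · intro i
      show (if 0 ≤ f (w i.succ.succ) then (0 : ℝ) else 1) ∈ Set.Icc (0 : ℝ) 1
      split_ifs
      · exact ⟨le_refl 0, zero_le_one⟩
      · exact ⟨zero_le_one, le_refl 1⟩
  obtain ⟨x', hx', y', hy', hxy⟩ := hW f _ hp _ hq
  have hdiff : f (v + ∑ i, a i • w i) - f (v + ∑ i, b i • w i)
      = wdt2 A P + ∑ i : Fin n, |f (w i.succ.succ)| := by
    have h1 : f (v + ∑ i, a i • w i) - f (v + ∑ i, b i • w i)
        = ∑ i, (a i - b i) * f (w i) := by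
      rw [map_add, map_add, map_sum, map_sum, add_sub_add_left_eq_sub,
        ← Finset.sum_sub_distrib]
      apply Finset.sum_congr rfl
      intro i _
      rw [map_smul, map_smul, smul_eq_mul, smul_eq_mul]
      ring
    rw [h1, Fin.sum_univ_succ, Fin.sum_univ_succ, hw2]
    have h2 : ∀ i : Fin n, (a i.succ.succ - b i.succ.succ) * f (w i.succ.succ)
        = |f (w i.succ.succ)| := by
      intro i
      show ((if 0 ≤ f (w i.succ.succ) then (1 : ℝ) else 0)
        - (if 0 ≤ f (w i.succ.succ) then (0 : ℝ) else 1)) * f (w i.succ.succ) = _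
      split_ifs with h
      · rw [abs_of_nonneg h]
        ring
      · rw [abs_of_neg (not_le.1 h)]
        ring
    rw [Finset.sum_congr rfl fun i _ => h2 i]
    show (x.1 - y.1) * f (w 0) + ((x.2 - y.2) * f (w 1) + _) = _
    rw [ev, ev, hP]
    ring
  rw [← hdiff]
  refine hxy.trans ?_
  rw [wdt]
  have h3 : f x' ≤ sSup (f '' K) :=
    le_csSup (hK.bddAbove_image f.continuous.continuousOn) ⟨x', hx', rfl⟩
  have h4 : sInf (f '' K) ≤ f y' :=
    csInf_le (hK.bddBelow_image f.continuous.continuousOn) ⟨y', hy', rfl⟩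
  linarith

end Pool.Agent.H33.TSD
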