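import Pool.Agent.H74.TSD.Targets

/-! D2: replacing one or two functionals of a basis. -/

set_option autoImplicit false

open MeasureTheory Set Metric Filter
open scoped ENNReal Pointwise Topology

namespace Pool.Agent.H33.TSD

open Pool.Agent.H74.TSD Pool.Agent.H73.TS

namespace D2

/-- the row of a functional -/
noncomputable def row (d : ℕ) : (E d →L[ℝ] ℝ) →ₗ[ℝ] (Fin d → ℝ) where
  toFun g := fun j => g (EuclideanSpace.single j (1 : ℝ))
  map_add' _ _ := rfl
  map_smul' _ _ := rfl

/-- the determinant as an alternating map -/
noncomputable def alt (d : ℕ) : (E d →L[ℝ] ℝ) [⋀^Fin d]→ₗ[ℝ] ℝ :=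
  (Matrix.detRowAlternating (n := Fin d) (R := ℝ)).compLinearMap (row d)

theorem dt_eq {d : ℕ} (g : Fin d → (E d →L[ℝ] ℝ)) : dt g = alt d g := rfl

theorem sum_single {d : ℕ} (x : E d) : x = ∑ j, x j • EuclideanSpace.single j (1 : ℝ) := by
  ext k
  have h1 : (∑ j, x j • EuclideanSpace.single j (1 : ℝ) : E d) k
      = ∑ j, x j * (EuclideanSpace.single j (1 : ℝ) : E d) k := by
    simp only [WithLp.ofLp_sum, Finset.sum_apply, WithLp.ofLp_smul, Pi.smul_apply, smul_eq_mul]
  rw [h1, Finset.sum_eq_single k]
  · rw [PiLp.single_apply, if_pos rfl, mul_one]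
  · intro j _ hj
    rw [PiLp.single_apply, if_neg (Ne.symm hj), mul_zero]
  · intro hk
    exact absurd (Finset.mem_univ k) hk

theorem expand {d : ℕ} (f : Fin d → (E d →L[ℝ] ℝ)) (w : Fin d → E d)
    (h : ∀ i j, f i (w j) = if i = j then 1 else 0) (φ : E d →L[ℝ] ℝ) :
    φ = ∑ k, φ (w k) • f k := by
  let F : Matrix (Fin d) (Fin d) ℝ := Matrix.of fun i j => f i (EuclideanSpace.single j (1 : ℝ))
  let W : Matrix (Fin d) (Fin d) ℝ := Matrix.of fun i j => (w j) i
  have hFW : F * W = 1 := by
    ext i l
    rw [Matrix.mul_apply, Matrix.one_apply, ← h i l]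
    have h1 : f i (w l) = ∑ j, (w l) j * f i (EuclideanSpace.single j (1 : ℝ)) := by
      conv_lhs => rw [sum_single (w l)]
      rw [map_sum]
      apply Finset.sum_congr rfl
      intro j _
      rw [map_smul, smul_eq_mul]
    rw [h1]
    apply Finset.sum_congr rfl
    intro j _
    show f i (EuclideanSpace.single j (1 : ℝ)) * (w l) j = _
    ring
  have hWF : W * F = 1 := mul_eq_one_comm.mp hFW
  have he : ∀ j : Fin d, EuclideanSpace.single j (1 : ℝ)
      = ∑ k, f k (EuclideanSpace.single j (1 : ℝ)) • w k := by
    intro j
    ext l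
    have h2 := congrFun (congrFun hWF l) j
    rw [Matrix.mul_apply, Matrix.one_apply] at h2
    have h3 : (∑ k, f k (EuclideanSpace.single j (1 : ℝ)) • w k : E d) l
        = ∑ k, f k (EuclideanSpace.single j (1 : ℝ)) * (w k) l := by
      simp
    rw [h3]
    have h4 : ∑ k, f k (EuclideanSpace.single j (1 : ℝ)) * (w k) l
        = if l = j then (1 : ℝ) else 0 := by
      rw [← h2]
      apply Finset.sum_congr rfl
      intro k _
      show f k (EuclideanSpace.single j (1 : ℝ)) * (w k) l
        = (w k) l * f k (EuclideanSpace.single j (1 : ℝ))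
      ring
    rw [h4, PiLp.single_apply]
  have hj : ∀ j : Fin d, φ (EuclideanSpace.single j (1 : ℝ))
      = (∑ k, φ (w k) • f k) (EuclideanSpace.single j (1 : ℝ)) := by
    intro j
    conv_lhs => rw [he j]
    rw [map_sum, _root_.sum_apply]
    apply Finset.sum_congr rfl
    intro k _
    rw [map_smul, _root_.smul_apply, smul_eq_mul, smul_eq_mul]
    ring
  apply ContinuousLinearMap.ext
  intro x
  rw [sum_single x, map_sum, map_sum]
  apply Finset.sum_congr rfl
  intro j _
  rw [map_smul, map_smul, hj j]

theorem one_row {d : ℕ} (f : Fin d → (E d →L[ℝ] ℝ)) (w : Fin d → E d)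
    (h : ∀ i j, f i (w j) = if i = j then 1 else 0) (φ : E d →L[ℝ] ℝ) (i : Fin d) :
    alt d (Function.update f i φ) = φ (w i) * alt d f := by
  conv_lhs => rw [expand f w h φ]
  rw [(alt d).map_update_sum]
  rw [Finset.sum_eq_single i]
  · rw [(alt d).map_update_smul, Function.update_eq_self, smul_eq_mul]
  · intro k _ hk
    rw [(alt d).map_update_smul, (alt d).map_update_self f (Ne.symm hk), smul_zero]
  · intro hi
    exact absurd (Finset.mem_univ i) hi

end D2

theorem pf_D2 : T_D2 := by
  intro d f w h
  refine ⟨?_, ?_⟩
  · intro φ i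
    exact D2.one_row f w h φ i
  · intro φ ψ i j hij
    rw [D2.dt_eq, D2.dt_eq]
    conv_lhs => rw [D2.expand f w h ψ]
    rw [(D2.alt d).map_update_sum]
    rw [Finset.sum_eq_add i j hij]
    · have h1 : (D2.alt d) (Function.update (Function.update f i φ) j (ψ (w i) • f i))
          = -(ψ (w i) * (φ (w j) * D2.alt d f)) := by
        rw [(D2.alt d).map_update_smul, smul_eq_mul, ← D2.one_row f w h φ j]
        have h2 : (Function.update (Function.update f i φ) j (f i)) ∘ Equiv.swap i j
            = Function.update f j φ := by
          funext k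
          rw [Function.comp_apply]
          by_cases hki : k = i
          · rw [hki, Equiv.swap_apply_left, Function.update_self,
              Function.update_of_ne hij]
          · by_cases hkj : k = j
            · rw [hkj, Equiv.swap_apply_right, Function.update_of_ne hij,
                Function.update_self, Function.update_self]
            · rw [Equiv.swap_apply_of_ne_of_ne hki hkj, Function.update_of_ne hkj,
                Function.update_of_ne hki, Function.update_of_ne hkj]
        have h3 := (D2.alt d).map_swap (Function.update (Function.update f i φ) j (f i)) hij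
        rw [h2] at h3
        rw [h3]
        ring
      have h4 : (D2.alt d) (Function.update (Function.update f i φ) j (ψ (w j) • f j))
          = ψ (w j) * (φ (w i) * D2.alt d f) := by
        rw [(D2.alt d).map_update_smul, smul_eq_mul, ← D2.one_row f w h φ i]
        have h5 : Function.update (Function.update f i φ) j (f j) = Function.update f i φ := by
          have h6 : f j = (Function.update f i φ) j := by
            rw [Function.update_of_ne (Ne.symm hij)]
          conv_lhs => rw [h6]
          rw [Function.update_eq_self]
        rw [h5]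
      rw [h1, h4]
      ring
    · intro k _ hk
      rw [(D2.alt d).map_update_smul]
      have h7 : f k = (Function.update f i φ) k := by
        rw [Function.update_of_ne hk.1]
      rw [h7, (D2.alt d).map_update_self _ (Ne.symm hk.2), smul_zero]
    · intro hi
      exact absurd (Finset.mem_univ i) hi
    · intro hj
      exact absurd (Finset.mem_univ j) hj

end Pool.Agent.H33.TSD
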