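import Pool.Agent.H74.TSD.Targets

/-! EW: comparison with an ellipsoid. -/

set_option autoImplicit false

open MeasureTheory Set Metric Filter
open scoped ENNReal Pointwise Topology

namespace Pool.Agent.H33.TSD

open Pool.Agent.H74.TSD Pool.Agent.H73.TS

namespace EW

theorem sum_single {d : ℕ} (x : E d) : x = ∑ j, x j • EuclideanSpace.single j (1 : ℝ) := by
  ext k
  have h1 : (∑ j, x j • EuclideanSpace.single j (1 : ℝ) : E d) k
      = ∑ j, x j * (EuclideanSpace.single j (1 : ℝ) : E d) k := by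
    simp only [WithLp.ofLp_sum, Finset.sum_apply, WithLp.ofLp_smul, Pi.smul_apply, smul_eq_mul]
  rw [h1, Finset.sum_eq_single k]
  · rw [PiLp.single_apply, if_pos rfl, mul_one]
  · intro j _ hj
    rw [PiLp.single_apply, if_neg (Ne.symm hj), mul_zero]
  · intro hk
    exact absurd (Finset.mem_univ k) hk

/-- expansion along `B.symm` of the standard basis -/
theorem expand (B : E 3 ≃L[ℝ] E 3) (x : E 3) :
    x = ∑ j, (B x) j • B.symm (EuclideanSpace.single j (1 : ℝ)) := by
  have h1 : x = B.symm (B x) := (B.symm_apply_apply x).symm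
  conv_lhs => rw [h1, sum_single (B x), map_sum]
  apply Finset.sum_congr rfl
  intro j _
  rw [map_smul]

end EW

theorem pf_EW (h1 : T_W1) (hp : T_PAR) : T_EW := by
  intro B K hK hKn hN
  let w : Fin 3 → E 3 := fun i => B.symm (EuclideanSpace.single i (1 : ℝ))
  have hlin : LinearIndependent ℝ w := by
    have h2 : LinearIndependent ℝ (fun i : Fin 3 => (EuclideanSpace.single i (1 : ℝ) : E 3)) := by
      have h3 := (EuclideanSpace.basisFun (Fin 3) ℝ).toBasis.linearIndependent
      have h4 : (⇑(EuclideanSpace.basisFun (Fin 3) ℝ).toBasis)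
          = (fun i : Fin 3 => (EuclideanSpace.single i (1 : ℝ) : E 3)) := by
        funext i
        simp
      rw [h4] at h3
      exact h3
    have h5 := h2.map' (B.symm.toLinearEquiv : E 3 →ₗ[ℝ] E 3)
      (LinearMap.ker_eq_bot.2 B.symm.injective)
    exact h5
  obtain ⟨L, hL, hvol, -⟩ := hp 3 w 0 hlin
  have hLB : L = B := by
    apply ContinuousLinearEquiv.ext
    funext x
    show L x = B x
    conv_lhs => rw [EW.expand B x, map_sum]
    conv_rhs => rw [EW.sum_single (B x)]
    apply Finset.sum_congr rfl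
    intro j _
    rw [map_smul]
    have : L (B.symm (EuclideanSpace.single j (1 : ℝ))) = EuclideanSpace.single j (1 : ℝ) := hL j
    rw [this]
  refine ⟨w, hlin, ?_, ?_⟩
  · intro f p hp' q hq'
    obtain ⟨α, hα, -, hpα⟩ := hp'
    obtain ⟨β, hβ, -, hqβ⟩ := hq'
    let a : E 3 := WithLp.toLp 2 (fun i => f (w i))
    have hfa : f = fa B a := by
      apply ContinuousLinearMap.ext
      intro x
      conv_lhs => rw [EW.expand B x, map_sum]
      show _ = inner ℝ a (B x)
      rw [PiLp.inner_apply]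
      apply Finset.sum_congr rfl
      intro j _
      rw [map_smul, smul_eq_mul]
      show (B x) j * f (w j) = (B x) j * f (w j)
      rfl
    have hdiff : f p - f q = ∑ i, (α i - β i) * f (w i) := by
      rw [hpα, hqβ, map_add, map_add, map_sum, map_sum, add_sub_add_left_eq_sub,
        ← Finset.sum_sub_distrib]
      apply Finset.sum_congr rfl
      intro i _
      rw [map_smul, map_smul, smul_eq_mul, smul_eq_mul]
      ring
    have hna : ‖a‖ ^ 2 = ∑ i, (f (w i)) ^ 2 := by
      rw [EuclideanSpace.norm_sq_eq]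
      apply Finset.sum_congr rfl
      intro i _
      show ‖f (w i)‖ ^ 2 = _
      rw [Real.norm_eq_abs, sq_abs]
    have hab : ∑ i, (α i - β i) ^ 2 ≤ 1 := by
      have h6 : ∀ i, (α i - β i) ^ 2 ≤ 2 * α i ^ 2 + 2 * β i ^ 2 := by
        intro i
        nlinarith [sq_nonneg (α i + β i)]
      calc ∑ i, (α i - β i) ^ 2 ≤ ∑ i, (2 * α i ^ 2 + 2 * β i ^ 2) :=
            Finset.sum_le_sum fun i _ => h6 i
        _ = 2 * ∑ i, α i ^ 2 + 2 * ∑ i, β i ^ 2 := by
            rw [Finset.sum_add_distrib, ← Finset.mul_sum, ← Finset.mul_sum]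
        _ ≤ 2 * (1 / 4) + 2 * (1 / 4) := by linarith
        _ = 1 := by norm_num
    have hcs : (∑ i, (α i - β i) * f (w i)) ^ 2 ≤ ‖a‖ ^ 2 := by
      calc (∑ i, (α i - β i) * f (w i)) ^ 2
          ≤ (∑ i, (α i - β i) ^ 2) * ∑ i, (f (w i)) ^ 2 := Finset.sum_mul_sq_le_sq_mul_sq _ _ _
        _ ≤ 1 * ∑ i, (f (w i)) ^ 2 :=
            mul_le_mul_of_nonneg_right hab (Finset.sum_nonneg fun i _ => sq_nonneg _)
        _ = ‖a‖ ^ 2 := by rw [one_mul, hna]
    have hle : f p - f q ≤ ‖a‖ := by
      rw [hdiff]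
      exact (le_abs_self _).trans (abs_le_of_sq_le_sq hcs (norm_nonneg a))
    obtain ⟨x, hx, y, hy, hxy, -⟩ := (h1 3 K hK hKn).1 f
    refine ⟨x, hx, y, hy, ?_⟩
    rw [← hxy]
    have h7 := hN a
    rw [← hfa] at h7
    linarith
  · rw [← hLB]
    exact hvol

end Pool.Agent.H33.TSD
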