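import Pool.Agent.H74.TSD.Targets

/-! LO: the ellipsoid of least volume around the polar of the difference body. -/

set_option autoImplicit false

open MeasureTheory Set Metric Filter
open scoped ENNReal Pointwise Topology

namespace Pool.Agent.H33.TSD

open Pool.Agent.H74.TSD Pool.Agent.H73.TS

theorem pf_LO (h1 : T_W1) (h2 : T_PB) : T_LO := by
  intro K hK hKi
  have hKn : K.Nonempty := hKi.mono interior_subset
  obtain ⟨-, hsm, hct, hpos⟩ := h1 3 K hK hKn
  let n : E 3 → ℝ := fun b => wdt K (innerSL ℝ b)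
  have hnc : Continuous n := hct.comp (innerSL ℝ).continuous
  have hnh : ∀ (s : ℝ) (b : E 3), n (s • b) = |s| * n b := by
    intro s b
    show wdt K (innerSL ℝ (s • b)) = |s| * wdt K (innerSL ℝ b)
    rw [map_smul]
    exact hsm _ _
  have hnp : ∀ b : E 3, b ≠ 0 → 0 < n b := by
    intro b hb
    apply hpos hKi
    intro h0
    apply hb
    have h3 : inner ℝ b b = (0 : ℝ) := by
      have := congrArg (fun f : E 3 →L[ℝ] ℝ => f b) h0
      exact this
    exact inner_self_eq_zero.1 h3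
  have hn0 : n 0 = 0 := by
    have := hnh 0 0
    rw [zero_smul, abs_zero, zero_mul] at this
    exact this
  -- bounds on the sphere
  have hsc : IsCompact (sphere (0 : E 3) 1) := isCompact_sphere 0 1
  have hsn : (sphere (0 : E 3) 1).Nonempty := by
    refine ⟨EuclideanSpace.single 0 1, ?_⟩
    rw [mem_sphere_zero_iff_norm]
    simp
  obtain ⟨b₀, hb₀, hmin⟩ := hsc.exists_isMinOn hsn hnc.continuousOn
  obtain ⟨b₁, hb₁, hmax⟩ := hsc.exists_isMaxOn hsn hnc.continuousOn
  have hr : 0 < n b₀ := by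
    apply hnp
    intro h0
    rw [mem_sphere_zero_iff_norm, h0, norm_zero] at hb₀
    exact zero_ne_one hb₀
  have hunit : ∀ b : E 3, b ≠ 0 → n b = ‖b‖ * n (‖b‖⁻¹ • b) ∧ ‖b‖⁻¹ • b ∈ sphere (0 : E 3) 1 := by
    intro b hb
    have hb' : 0 < ‖b‖ := norm_pos_iff.2 hb
    refine ⟨?_, ?_⟩
    · rw [hnh, abs_of_pos (inv_pos.2 hb'), ← mul_assoc, mul_inv_cancel₀ hb'.ne', one_mul]
    · rw [mem_sphere_zero_iff_norm, norm_smul, norm_inv, norm_norm, inv_mul_cancel₀ hb'.ne']
  have hlow : ∀ b : E 3, n b₀ * ‖b‖ ≤ n b := by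
    intro b
    by_cases hb : b = 0
    · rw [hb, norm_zero, mul_zero, hn0]
    · obtain ⟨h3, h4⟩ := hunit b hb
      rw [h3, mul_comm]
      exact mul_le_mul_of_nonneg_left (hmin h4) (norm_nonneg b)
  have hupp : ∀ b : E 3, n b ≤ n b₁ * ‖b‖ := by
    intro b
    by_cases hb : b = 0
    · rw [hb, norm_zero, mul_zero, hn0]
    · obtain ⟨h3, h4⟩ := hunit b hb
      rw [h3, mul_comm (n b₁)]
      exact mul_le_mul_of_nonneg_left (hmax h4) (norm_nonneg b)
  have hR0 : 0 ≤ n b₁ := by
    have := hmax hb₀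
    exact hr.le.trans this
  -- the compact set of maps
  let Q : Set (E 3 →L[ℝ] E 3) := {G | ∀ b, ‖G b‖ ≤ n b}
  have hQcl : IsClosed Q := by
    have h3 : Q = ⋂ b : E 3, {G : E 3 →L[ℝ] E 3 | ‖G b‖ ≤ n b} := by
      ext G
      rw [Set.mem_iInter]
      rfl
    rw [h3]
    apply isClosed_iInter
    intro b
    apply isClosed_le _ continuous_const
    exact (ContinuousLinearMap.apply ℝ (E 3) b).continuous.norm
  have hQb : Bornology.IsBounded Q := by
    apply (Metric.isBounded_closedBall (x := (0 : E 3 →L[ℝ] E 3)) (r := n b₁)).subset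
    intro G hG
    rw [mem_closedBall_zero_iff]
    apply ContinuousLinearMap.opNorm_le_bound _ hR0
    intro b
    exact (hG b).trans (hupp b)
  have hQc : IsCompact Q := Metric.isCompact_of_isClosed_isBounded hQcl hQb
  have hid : (n b₀) • ContinuousLinearMap.id ℝ (E 3) ∈ Q := by
    intro b
    show ‖(n b₀) • b‖ ≤ n b
    rw [norm_smul, Real.norm_eq_abs, abs_of_pos hr]
    exact hlow b
  have hdc : Continuous (fun G : E 3 →L[ℝ] E 3 => |G.det|) :=
    ContinuousLinearMap.continuous_det.abs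
  obtain ⟨G₀, hG₀, hG₀m⟩ := hQc.exists_isMaxOn ⟨_, hid⟩ hdc.continuousOn
  have hdet : G₀.det ≠ 0 := by
    intro h0
    have h3 : |((n b₀) • ContinuousLinearMap.id ℝ (E 3)).det| ≤ |G₀.det| := hG₀m hid
    rw [h0, abs_zero] at h3
    have h4 : ((n b₀) • ContinuousLinearMap.id ℝ (E 3)).det = (n b₀) ^ 3 := by
      show LinearMap.det ((n b₀) • (LinearMap.id : E 3 →ₗ[ℝ] E 3)) = _
      rw [LinearMap.det_smul, LinearMap.det_id, finrank_euclideanSpace_fin, mul_one]
    rw [h4] at h3
    have h5 : 0 < |(n b₀) ^ 3| := abs_pos.2 (pow_pos hr 3).ne'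
    linarith
  let e : E 3 ≃L[ℝ] E 3 := G₀.toContinuousLinearEquivOfDetNeZero hdet
  have he : ∀ x, e x = G₀ x := fun x => rfl
  let N : E 3 → ℝ := fun a => n (e.symm a)
  have hNc : Continuous N := hnc.comp e.symm.continuous
  have hNl : ∀ a, ‖a‖ ≤ N a := by
    intro a
    have h3 := hG₀ (e.symm a)
    rw [← he, e.apply_symm_apply] at h3
    exact h3
  have hNh : ∀ (s : ℝ) (a : E 3), N (s • a) = |s| * N a := by
    intro s a
    show n (e.symm (s • a)) = |s| * n (e.symm a)
    rw [map_smul, hnh]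
  have hNd : ∀ G : E 3 →L[ℝ] E 3, (∀ a, ‖G a‖ ≤ N a) →
      |LinearMap.det (G : E 3 →ₗ[ℝ] E 3)| ≤ 1 := by
    intro G hG
    have h3 : G.comp G₀ ∈ Q := by
      intro b
      show ‖G (G₀ b)‖ ≤ n b
      have h4 := hG (G₀ b)
      have h5 : N (G₀ b) = n b := by
        show n (e.symm (G₀ b)) = n b
        rw [← he, e.symm_apply_apply]
      rw [h5] at h4
      exact h4
    have h6 : |(G.comp G₀).det| ≤ |G₀.det| := hG₀m h3
    have h7 : (G.comp G₀).det = G.det * G₀.det := by
      show LinearMap.det ((G : E 3 →ₗ[ℝ] E 3).comp (G₀ : E 3 →ₗ[ℝ] E 3)) = _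
      exact LinearMap.det_comp _ _
    rw [h7, abs_mul] at h6
    have h8 : 0 < |G₀.det| := abs_pos.2 hdet
    have h9 : |G.det| * |G₀.det| ≤ 1 * |G₀.det| := by
      rw [one_mul]
      exact h6
    exact le_of_mul_le_mul_right h9 h8
  have hmem := h2 N hNc hNl hNh hNd
  -- the adjoint
  let S : E 3 →L[ℝ] E 3 := (e.symm : E 3 →L[ℝ] E 3)
  let R : E 3 →L[ℝ] E 3 := (e : E 3 →L[ℝ] E 3)
  have hl : Function.LeftInverse (ContinuousLinearMap.adjoint R) (ContinuousLinearMap.adjoint S) := by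
    intro x
    apply ext_inner_left ℝ
    intro y
    rw [ContinuousLinearMap.adjoint_inner_right, ContinuousLinearMap.adjoint_inner_right]
    show inner ℝ (e.symm (e y)) x = inner ℝ y x
    rw [e.symm_apply_apply]
  have hr' : Function.RightInverse (ContinuousLinearMap.adjoint R)
      (ContinuousLinearMap.adjoint S) := by
    intro x
    apply ext_inner_left ℝ
    intro y
    rw [ContinuousLinearMap.adjoint_inner_right, ContinuousLinearMap.adjoint_inner_right]
    show inner ℝ (e (e.symm y)) x = inner ℝ y x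
    rw [e.apply_symm_apply]
  let B : E 3 ≃L[ℝ] E 3 := ContinuousLinearEquiv.equivOfInverse
    (ContinuousLinearMap.adjoint S) (ContinuousLinearMap.adjoint R) hl hr'
  have hB : ∀ a, wdt K (fa B a) = N a := by
    intro a
    have h3 : fa B a = innerSL ℝ (e.symm a) := by
      apply ContinuousLinearMap.ext
      intro x
      show inner ℝ a (ContinuousLinearMap.adjoint S x) = inner ℝ (e.symm a) x
      rw [ContinuousLinearMap.adjoint_inner_right]
      rfl
    rw [h3]
  refine ⟨B, ?_, ?_⟩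
  · intro a
    rw [hB a]
    exact hNl a
  · have h3 : {a : E 3 | ‖a‖ = 1 ∧ wdt K (fa B a) = 1} = {a : E 3 | ‖a‖ = 1 ∧ N a = 1} := by
      ext a
      show (‖a‖ = 1 ∧ wdt K (fa B a) = 1) ↔ (‖a‖ = 1 ∧ N a = 1)
      rw [hB a]
    rw [h3]
    exact hmem

end Pool.Agent.H33.TSD
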